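import Mathlib
import Pool.Agent.Q79.HB

open Set

namespace Pool.Agent.Results.MP_28939e_an.NoSigmaOrderedCycle

section Defs

variable {E : Type*} [NormedAddCommGroup E] [InnerProductSpace ℝ E] [CompleteSpace E]

/-- The class `𝓕_{μ,L}(E)` of differentiable functions `E → ℝ` that are `μ`-strongly convex
and `L`-smooth (the gradient is `L`-Lipschitz). -/
def FClass (E : Type*) [NormedAddCommGroup E] [InnerProductSpace ℝ E] [CompleteSpace E]
    (μ L : ℝ) : Set (E → ℝ) :=
  {f | Differentiable ℝ f ∧ StrongConvexOn univ μ f ∧ LipschitzWith L.toNNReal (gradient f)}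

/-- `x` is a cycle of length `K` of the heavy-ball method with step size `γ` and momentum `β`
on `f`: the points are not all equal and, with indices modulo `K`,
`x (i+1) = x i - γ ∇f(x i) + β (x i - x (i-1))`. -/
def IsCycle (γ β : ℝ) (f : E → ℝ) (K : ℕ) (x : ZMod K → E) : Prop :=
  (∃ i j, x i ≠ x j) ∧
    ∀ i : ZMod K, x (i + 1) = x i - γ • gradient f (x i) + β • (x i - x (i - 1))

end Defs

/-- The set `Ω` of tunings `(γ, β)` for which a cycle of some length `K ≥ 3` exists on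
`𝓕_{μ,L}(ℝ^d)` for some `d ≥ 1`. -/
def Omega (μ L : ℝ) : Set (ℝ × ℝ) :=
  {p | ∃ K : ℕ, 3 ≤ K ∧ ∃ d : ℕ, 1 ≤ d ∧ ∃ f ∈ FClass (EuclideanSpace ℝ (Fin d)) μ L,
    ∃ x : ZMod K → EuclideanSpace ℝ (Fin d), IsCycle p.1 p.2 f K x}

/-- The permutation `σ_K` of `{0, …, K-1}`: `σ_K 0 = 0`, and `σ_K 1, …, σ_K (K-1)` are the odd
integers of `[1, K-1]` in increasing order followed by the even integers of `[2, K-1]` in
decreasing order. -/
def sigma (K j : ℕ) : ℕ := if j = 0 then 0 else if j ≤ K / 2 then 2 * j - 1 else 2 * (K - j)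

/-- The tuple `x` of real numbers is `σ_K`-ordered: `x i ≤ x j` whenever `σ_K i < σ_K j`. -/
def SigmaOrdered (K : ℕ) (x : ZMod K → ℝ) : Prop :=
  ∀ i j : ℕ, i < K → j < K → sigma K i < sigma K j → x (i : ZMod K) ≤ x (j : ZMod K)

/-- No one-dimensional `σ_K`-ordered cycle of length `K ≥ 3` exists for the tuning `(γ, β)`. -/
def NoSigmaCycle (μ L γ β : ℝ) : Prop :=
  ∀ K : ℕ, 3 ≤ K → ¬ ∃ f ∈ FClass ℝ μ L, ∃ x : ZMod K → ℝ,
    IsCycle γ β f K x ∧ SigmaOrdered K x

lemma sigma_zero (K : ℕ) : sigma K 0 = 0 := by simp [sigma]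

lemma sigma_left {K j : ℕ} (h0 : j ≠ 0) (h1 : j ≤ K / 2) : sigma K j = 2 * j - 1 := by
  simp [sigma, h0, h1]

lemma sigma_right {K j : ℕ} (h0 : j ≠ 0) (h1 : K / 2 < j) : sigma K j = 2 * (K - j) := by
  simp [sigma, h0, h1]

lemma core {β p q a b c : ℝ} (hβ : β < 1) (ha : 0 ≤ a) (hb : 0 ≤ b) (hc : 0 ≤ c)
    (h1 : (1 - β) * b + c ≤ p * a) (h2 : (1 - β) * a ≤ q * b) (hpq : q * p < (1 - β) ^ 2) :
    a = 0 ∧ b = 0 ∧ c = 0 := by
  have h0 : 0 < 1 - β := by linarith
  have hb0 : b = 0 := by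
    by_contra hne
    have hbp : 0 < b := lt_of_le_of_ne hb (Ne.symm hne)
    have hpa : 0 < p * a := by nlinarith [mul_pos h0 hbp]
    have hap : 0 < a := by
      rcases ha.lt_or_eq with h | h
      · exact h
      · rw [← h] at hpa; simp at hpa
    have hp : 0 < p := by
      by_contra hcon
      push Not at hcon
      nlinarith [mul_nonneg (neg_nonneg.mpr hcon) hap.le]
    have h3 : (1 - β) * ((1 - β) * b) ≤ p * (q * b) := by
      calc (1 - β) * ((1 - β) * b) ≤ (1 - β) * (p * a) := by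
            apply mul_le_mul_of_nonneg_left _ h0.le; linarith
        _ = p * ((1 - β) * a) := by ring
        _ ≤ p * (q * b) := mul_le_mul_of_nonneg_left h2 hp.le
    nlinarith
  subst hb0
  have ha0 : a = 0 := by nlinarith
  subst ha0
  refine ⟨rfl, rfl, ?_⟩
  linarith

lemma gradient_eq (f : ℝ → ℝ) : gradient f = deriv f := by
  funext u
  exact gradient_eq_deriv'

/-- If two consecutive steps of a cycle coincide, the cycle is constant. -/
lemma const_of_eq {γ β : ℝ} (hγ : 0 < γ) {f : ℝ → ℝ} {K : ℕ} {x : ZMod K → ℝ} (hK : 3 ≤ K)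
    (hc : IsCycle γ β f K x) (h1 : x 1 = x 0) (h2 : x (-1) = x 0) : False := by
  obtain ⟨⟨i, j, hij⟩, hx⟩ := hc
  have : NeZero K := ⟨by omega⟩
  have h0 := hx 0
  rw [zero_add, zero_sub, h1, h2, gradient_eq] at h0
  simp only [sub_self, smul_eq_mul, mul_zero, add_zero] at h0
  have hg : deriv f (x 0) = 0 := by
    have : γ * deriv f (x 0) = 0 := by linarith
    rcases mul_eq_zero.mp this with h | h
    · exact absurd h hγ.ne'
    · exact h
  have hall : ∀ n : ℕ, x (n : ZMod K) = x 0 ∧ x ((n : ZMod K) + 1) = x 0 := by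
    intro n
    induction n with
    | zero => simpa using h1
    | succ n ih =>
      refine ⟨by simpa using ih.2, ?_⟩
      have h3 := hx ((n : ZMod K) + 1)
      rw [add_sub_cancel_right, ih.1, ih.2, gradient_eq, hg] at h3
      simpa using h3
  have hall' : ∀ k : ZMod K, x k = x 0 := by
    intro k
    have := (hall k.val).1
    rwa [ZMod.natCast_zmod_val] at this
  exact hij ((hall' i).trans (hall' j).symm)

/-- The main obstruction. -/
theorem noSigmaCycle {μ L γ β : ℝ} (hμ : 0 < μ) (hμL : μ ≤ L) (hγ : 0 < γ) (hβ0 : 0 ≤ β)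
    (hβ1 : β < 1) (hβ2 : 2 * β ^ 2 ≤ (1 - β) ^ 2)
    (hpq : (γ * L - 2) * (1 + 2 * β - γ * μ) < (1 - β) ^ 2) : NoSigmaCycle μ L γ β := by
  rintro K hK ⟨f, ⟨hd, hs, hl⟩, x, hc, ho⟩
  have : NeZero K := ⟨by omega⟩
  rw [gradient_eq] at hl
  have hL : 0 ≤ L := hμ.le.trans hμL
  have hx := hc.2
  simp only [gradient_eq, smul_eq_mul] at hx
  -- the step at `0`, `1`, `-1`
  have e0 := hx 0
  rw [zero_add, zero_sub] at e0
  have e1 := hx 1
  rw [sub_self, show (1 : ZMod K) + 1 = 2 by norm_num] at e1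
  have em := hx (-1)
  rw [neg_add_cancel, show (-1 : ZMod K) - 1 = -2 by ring] at em
  have e2 := hx 2
  rw [show (2 : ZMod K) + 1 = 3 by norm_num, show (2 : ZMod K) - 1 = 1 by norm_num] at e2
  have cm1 : (((K - 1 : ℕ)) : ZMod K) = -1 := by
    rw [Nat.cast_sub (by omega)]; simp
  have cm2 : (((K - 2 : ℕ)) : ZMod K) = -2 := by
    rw [Nat.cast_sub (by omega)]; simp
  have o1 : x 0 ≤ x 1 := by
    have := ho 0 1 (by omega) (by omega) (by
      rw [sigma_zero, sigma_left (by omega) (by omega)]; omega)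
    simpa using this
  have o2 : x 1 ≤ x (-1) := by
    have := ho 1 (K - 1) (by omega) (by omega) (by
      rw [sigma_left (by omega) (by omega), sigma_right (by omega) (by omega)]; omega)
    rw [cm1] at this
    simpa using this
  obtain ⟨s1, t1⟩ := Q79.HB.slope_bounds hL hd hs hl o1
  obtain ⟨s2, t2⟩ := Q79.HB.slope_bounds hL hd hs hl o2
  have s1' := mul_le_mul_of_nonneg_left s1 hγ.le
  have t2' := mul_le_mul_of_nonneg_left t2 hγ.le
  rcases Nat.lt_or_ge 3 K with hK4 | hK3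
  · -- `K ≥ 4`
    have o3 : x (-1) ≤ x 2 := by
      have := ho (K - 1) 2 (by omega) (by omega) (by
        rw [sigma_left (j := 2) (by omega) (by omega), sigma_right (by omega) (by omega)]; omega)
      rw [cm1] at this
      simpa using this
    obtain ⟨s3, t3⟩ := Q79.HB.slope_bounds hL hd hs hl o3
    have s3' := mul_le_mul_of_nonneg_left s3 hγ.le
    -- the bound on `d = x (K-2) - x 2`
    have hdd : β * (x (-2) - x 2) ≤ (1 - β) * (x 2 - x (-1)) := by
      rcases Nat.lt_or_ge 4 K with hK5 | hK4'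
      · have o4 : x (-2) ≤ x 3 := by
          rcases Nat.lt_or_ge 5 K with hK6 | hK5'
          · have := ho (K - 2) 3 (by omega) (by omega) (by
              rw [sigma_left (j := 3) (by omega) (by omega), sigma_right (by omega) (by omega)]
              omega)
            rw [cm2] at this
            simpa using this
          · have hK5 : K = 5 := by omega
            subst hK5
            exact le_of_eq (congrArg x (by decide))
        have hc0 : 0 ≤ x 2 - x (-1) := by linarith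
        have hμc : 0 ≤ γ * (μ * (x 2 - x (-1))) := by positivity
        have hb0 : 0 ≤ (1 - β) * (x (-1) - x 1) := mul_nonneg (by linarith) (by linarith)
        have h3 : (1 - β) * (x (-2) - x 2) ≤ 2 * β * (x 2 - x (-1)) := by
          linarith
        have h4 : β * ((1 - β) * (x (-2) - x 2)) ≤ β * (2 * β * (x 2 - x (-1))) :=
          mul_le_mul_of_nonneg_left h3 hβ0
        have h5 : 2 * β ^ 2 * (x 2 - x (-1)) ≤ (1 - β) ^ 2 * (x 2 - x (-1)) :=
          mul_le_mul_of_nonneg_right hβ2 hc0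
        have h6 : (1 - β) * (β * (x (-2) - x 2)) ≤ (1 - β) * ((1 - β) * (x 2 - x (-1))) := by
          linarith
        exact le_of_mul_le_mul_left h6 (by linarith)
      · have hK4 : K = 4 := by omega
        subst hK4
        rw [show (-2 : ZMod 4) = 2 by decide, sub_self, mul_zero]
        exact mul_nonneg (by linarith) (by linarith)
    obtain ⟨ha, hb, _⟩ := core (a := x 1 - x 0) (b := x (-1) - x 1) (c := x 2 - x (-1))
      (p := 1 + 2 * β - γ * μ) (q := γ * L - 2) hβ1 (by linarith) (by linarith) (by linarith)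
      (by linarith) (by linarith) hpq
    exact const_of_eq hγ hK hc (by linarith) (by linarith)
  · -- `K = 3`
    have hK3' : K = 3 := by omega
    subst hK3'
    rw [show (2 : ZMod 3) = -1 by decide] at e1
    rw [show (-2 : ZMod 3) = 1 by decide] at em
    have hb' : 0 ≤ β * (x (-1) - x 1) := mul_nonneg hβ0 (by linarith)
    obtain ⟨ha, hb, _⟩ := core (a := x 1 - x 0) (b := x (-1) - x 1) (c := 0)
      (p := 1 + 2 * β - γ * μ) (q := γ * L - 2) hβ1 (by linarith) (by linarith) le_rfl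
      (by linarith) (by linarith) hpq
    exact const_of_eq hγ hK hc (by linarith) (by linarith)

/-- Quadratics `x ↦ (l/2) ‖x‖²` with `μ ≤ l ≤ L` belong to the class. -/
lemma quad_mem {E : Type*} [NormedAddCommGroup E] [InnerProductSpace ℝ E] [CompleteSpace E]
    {μ L l : ℝ} (hμ : 0 < μ) (h1 : μ ≤ l) (h2 : l ≤ L) :
    (fun x : E => l / 2 * ‖x‖ ^ 2) ∈ FClass E μ L ∧
      gradient (fun x : E => l / 2 * ‖x‖ ^ 2) = fun x => l • x := by
  have hg : ∀ x : E, HasGradientAt (fun x : E => l / 2 * ‖x‖ ^ 2) (l • x) x := by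
    intro x
    rw [hasGradientAt_iff_hasFDerivAt]
    have h := ((hasStrictFDerivAt_norm_sq x).hasFDerivAt).const_mul (l / 2)
    have h' : (InnerProductSpace.toDual ℝ E) (l • x) = (l / 2) • (2 • (innerSL ℝ) x) := by
      ext y
      simp only [InnerProductSpace.toDual_apply_apply, inner_smul_left, RCLike.conj_to_real,
        smul_apply, innerSL_apply_apply, smul_eq_mul, nsmul_eq_mul]
      push_cast
      ring
    rw [h']
    exact h
  have hgrad : gradient (fun x : E => l / 2 * ‖x‖ ^ 2) = fun x => l • x := by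
    funext x
    exact (hg x).gradient
  refine ⟨⟨fun x => (hg x).differentiableAt, ?_, ?_⟩, hgrad⟩
  · rw [strongConvexOn_iff_convex]
    have h3 : (fun x : E => l / 2 * ‖x‖ ^ 2 - μ / (2 : ℝ) * ‖x‖ ^ 2) =
        fun x : E => ((l - μ) / 2) • (‖x‖ ^ 2) := by
      funext x
      simp only [smul_eq_mul]
      ring
    rw [h3]
    apply ConvexOn.smul (by linarith)
    exact (convexOn_norm convex_univ).pow (fun x _ => norm_nonneg x) 2
  · rw [hgrad]
    apply LipschitzWith.of_dist_le_mul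
    intro x y
    rw [Real.coe_toNNReal _ (by linarith), dist_eq_norm, dist_eq_norm, ← smul_sub, norm_smul,
      Real.norm_of_nonneg (by linarith)]
    exact mul_le_mul_of_nonneg_right h2 (norm_nonneg _)

/-- Tunings with `γ μ ≤ 2 (1 + β) ≤ γ L` belong to `Ω`. -/
theorem mem_Omega {μ L γ β : ℝ} (hμ : 0 < μ) (hγ : 0 < γ)
    (h1 : γ * μ ≤ 2 * (1 + β)) (h2 : 2 * (1 + β) ≤ γ * L) : (γ, β) ∈ Omega μ L := by
  set l : ℝ := 2 * (1 + β) / γ with hl
  have hγl : γ * l = 2 * (1 + β) := by rw [hl]; field_simp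
  have hl1 : μ ≤ l := by
    rw [hl, le_div_iff₀ hγ]; linarith
  have hl2 : l ≤ L := by
    rw [hl, div_le_iff₀ hγ]; linarith
  obtain ⟨hf, hgrad⟩ := quad_mem (E := EuclideanSpace ℝ (Fin 1)) hμ hl1 hl2
  set v : EuclideanSpace ℝ (Fin 1) := EuclideanSpace.single 0 (1 : ℝ) with hv
  have hv0 : v ≠ 0 := by
    intro h
    have := congrArg (fun w : EuclideanSpace ℝ (Fin 1) => w 0) h
    simp [hv] at this
  set s : Fin 4 → ℝ := ![1, -1, 1, -1] with hsdef
  refine ⟨4, by norm_num, 1, le_rfl, _, hf, (fun i : Fin 4 => s i • v : ZMod 4 → _),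
    ⟨⟨(0 : Fin 4), (1 : Fin 4), ?_⟩, ?_⟩⟩
  · intro h
    have h' : (1 : ℝ) • v = (-1 : ℝ) • v := h
    have h3 : (2 : ℝ) • v = 0 := by
      have : (1 : ℝ) • v - (-1 : ℝ) • v = 0 := sub_eq_zero.mpr h'
      rw [← sub_smul] at this
      norm_num at this
      exact absurd this hv0
    rcases smul_eq_zero.mp h3 with h4 | h4
    · norm_num at h4
    · exact hv0 h4
  · rw [hgrad]
    have key : ∀ i : Fin 4, s (i + 1) • v = s i • v - γ • (l • (s i • v)) +
        β • (s i • v - s (i - 1) • v) := by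
      intro i
      simp only [smul_smul, ← sub_smul, ← add_smul]
      congr 1
      have : γ * (l * s i) = 2 * (1 + β) * s i := by rw [← mul_assoc, hγl]
      rw [this]
      fin_cases i
      · show (-1 : ℝ) = 1 - 2 * (1 + β) * 1 + β * (1 - -1); ring
      · show (1 : ℝ) = -1 - 2 * (1 + β) * (-1) + β * (-1 - 1); ring
      · show (-1 : ℝ) = 1 - 2 * (1 + β) * 1 + β * (1 - -1); ring
      · show (1 : ℝ) = -1 - 2 * (1 + β) * (-1) + β * (-1 - 1); ring
    exact key

/-- For `γ μ ≤ 2 β` and `γ L > 2 (1 + β)` there is a one-dimensional cycle of length `4` with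
four distinct points. -/
theorem exists_primitive {μ L γ β : ℝ} (hμ : 0 < μ) (hμL : μ ≤ L) (hγ : 0 < γ) (hβ0 : 0 < β)
    (hβ1 : β < 1) (h1 : γ * μ ≤ 2 * β) (h2 : 2 * (1 + β) < γ * L) :
    ∃ f ∈ FClass ℝ μ L, ∃ x : ZMod 4 → ℝ, IsCycle γ β f 4 x ∧ Function.Injective x := by
  set D : ℝ := γ * L - 2 * (1 + β) with hD
  have hDpos : 0 < D := by rw [hD]; linarith
  -- choose `q` large
  set q : ℝ := 2 + (1 + β) / D with hq
  have hqD : (q - 2) * D = 1 + β := by
    rw [hq]; field_simp; ring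
  have hq2 : 2 < q := by
    have : 0 < (1 + β) / D := by positivity
    rw [hq]; linarith
  set X : Fin 4 → ℝ := ![0, q, 1, q + 1] with hX
  set G : Fin 4 → ℝ := ![(-(β * (q + 1)) - q) / γ, ((1 + β) * q - 1) / γ,
    ((1 + β) - β * q - (q + 1)) / γ, ((1 + β) * q + 1) / γ] with hG
  have hγ0 : γ ≠ 0 := hγ.ne'
  -- the three consecutive slopes
  have g02 : G 2 - G 0 = 2 * β / γ := by
    show ((1 + β) - β * q - (q + 1)) / γ - (-(β * (q + 1)) - q) / γ = 2 * β / γ
    rw [← sub_div]; congr 1; ring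
  have g21 : G 1 - G 2 = ((1 + β) * (2 * q - 1)) / γ := by
    show ((1 + β) * q - 1) / γ - ((1 + β) - β * q - (q + 1)) / γ = ((1 + β) * (2 * q - 1)) / γ
    rw [← sub_div]; congr 1; ring
  have g13 : G 3 - G 1 = 2 / γ := by
    show ((1 + β) * q + 1) / γ - ((1 + β) * q - 1) / γ = 2 / γ
    rw [← sub_div]; congr 1; ring
  have l02 : μ ≤ G 2 - G 0 := by rw [g02, le_div_iff₀ hγ]; linarith
  have u02 : G 2 - G 0 ≤ L := by rw [g02, div_le_iff₀ hγ]; nlinarith
  have l21 : μ * (q - 1) ≤ G 1 - G 2 := by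
    rw [g21, le_div_iff₀ hγ]
    have : μ * (q - 1) * γ = (γ * μ) * (q - 1) := by ring
    rw [this]
    nlinarith
  have u21 : G 1 - G 2 ≤ L * (q - 1) := by
    rw [g21, div_le_iff₀ hγ]
    have : L * (q - 1) * γ = (D + 2 * (1 + β)) * (q - 1) := by rw [hD]; ring
    rw [this]
    nlinarith
  have l13 : μ ≤ G 3 - G 1 := by rw [g13, le_div_iff₀ hγ]; nlinarith
  have u13 : G 3 - G 1 ≤ L := by rw [g13, div_le_iff₀ hγ]; nlinarith
  have X0 : X 0 = 0 := rfl
  have X1 : X 1 = q := rfl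
  have X2 : X 2 = 1 := rfl
  have X3 : X 3 = q + 1 := rfl
  obtain ⟨f, hd, hs, hl, hf⟩ := Q79.HB.exists_interpolant (ι := Fin 4) (μ := μ) (L := L)
    hμ.le hμL X G (by
      intro s t hst
      have hcase : ∀ i : Fin 4, i = 0 ∨ i = 1 ∨ i = 2 ∨ i = 3 := by decide
      rcases hcase s with rfl | rfl | rfl | rfl <;> rcases hcase t with rfl | rfl | rfl | rfl <;>
        simp only [X0, X1, X2, X3] at hst ⊢ <;> first
        | (constructor <;> linarith)
        | (exfalso; linarith))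
  refine ⟨f, ⟨hd, hs, ?_⟩, (X : ZMod 4 → ℝ), ⟨⟨(0 : Fin 4), (1 : Fin 4), ?_⟩, ?_⟩, ?_⟩
  · rw [gradient_eq]; exact hl
  · show (0 : ℝ) ≠ q
    linarith
  · rw [gradient_eq]
    have key : ∀ j : Fin 4, X (j + 1) = X j - γ * G j + β * (X j - X (j - 1)) := by
      intro j
      fin_cases j
      · show q = 0 - γ * ((-(β * (q + 1)) - q) / γ) + β * (0 - (q + 1))
        rw [mul_div_cancel₀ _ hγ0]; ring
      · show (1 : ℝ) = q - γ * (((1 + β) * q - 1) / γ) + β * (q - 0)
        rw [mul_div_cancel₀ _ hγ0]; ring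
      · show q + 1 = 1 - γ * (((1 + β) - β * q - (q + 1)) / γ) + β * (1 - q)
        rw [mul_div_cancel₀ _ hγ0]; ring
      · show (0 : ℝ) = (q + 1) - γ * (((1 + β) * q + 1) / γ) + β * ((q + 1) - 1)
        rw [mul_div_cancel₀ _ hγ0]; ring
    intro i
    have h3 := key i
    rw [← hf i] at h3
    exact h3
  · have key : ∀ a b : Fin 4, X a = X b → a = b := by
      intro a b hab
      have hcase : ∀ i : Fin 4, i = 0 ∨ i = 1 ∨ i = 2 ∨ i = 3 := by decide
      rcases hcase a with rfl | rfl | rfl | rfl <;> rcases hcase b with rfl | rfl | rfl | rfl <;>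
        first
        | rfl
        | (exfalso; simp only [X0, X1, X2, X3] at hab; linarith)
    exact fun a b hab => key a b hab

/-- **Q1 is false for all `0 < μ ≤ L`.**
(1) For all `0 < μ ≤ L` some tuning `(γ, β) ∈ Ω` with `γ > 0` and momentum `0 < β < 1` admits no
one-dimensional `σ_K`-ordered cycle, for any length `K ≥ 3`.
(2) More generally this holds on the whole region `0 ≤ β < 1`, `2 β² ≤ (1-β)²`,
`γ μ ≤ 2 (1+β) ≤ γ L`, `(γ L - 2)(1 + 2β - γ μ) < (1-β)²`.
(3) If moreover `β > 0`, `γ μ ≤ 2 β` and `2 (1+β) < γ L`, there is a one-dimensional cycle of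
length `4` with four distinct points (so the failure is not due to repeated two-cycles).
(4) The conditions of (3) are satisfied by `μ = 1/20`, `L = 1`, `γ = 13/5`, `β = 1/10`. -/
theorem result :
    (∀ μ L : ℝ, 0 < μ → μ ≤ L → ∃ γ β : ℝ, 0 < γ ∧ 0 < β ∧ β < 1 ∧
      (γ, β) ∈ Omega μ L ∧ NoSigmaCycle μ L γ β) ∧
    (∀ μ L γ β : ℝ, 0 < μ → μ ≤ L → 0 < γ → 0 ≤ β → β < 1 → 2 * β ^ 2 ≤ (1 - β) ^ 2 →
      γ * μ ≤ 2 * (1 + β) → 2 * (1 + β) ≤ γ * L →
      (γ * L - 2) * (1 + 2 * β - γ * μ) < (1 - β) ^ 2 →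
      ((γ, β) ∈ Omega μ L ∧ NoSigmaCycle μ L γ β) ∧
      (0 < β → γ * μ ≤ 2 * β → 2 * (1 + β) < γ * L →
        ∃ f ∈ FClass ℝ μ L, ∃ x : ZMod 4 → ℝ, IsCycle γ β f 4 x ∧ Function.Injective x)) ∧
    (∃ f ∈ FClass ℝ (1 / 20) 1, ∃ x : ZMod 4 → ℝ,
      IsCycle (13 / 5) (1 / 10) f 4 x ∧ Function.Injective x) ∧
    NoSigmaCycle (1 / 20) 1 (13 / 5) (1 / 10) := by
  refine ⟨?_, ?_, ?_, ?_⟩
  · intro μ L hμ hμL
    have hL : 0 < L := hμ.trans_le hμL
    have hγL : (12 / 5 / L) * L = 12 / 5 := by field_simp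
    have hγ : 0 < 12 / 5 / L := by positivity
    have hγμ : (12 / 5 / L) * μ ≤ 12 / 5 := by
      calc (12 / 5 / L) * μ ≤ (12 / 5 / L) * L := mul_le_mul_of_nonneg_left hμL hγ.le
        _ = 12 / 5 := hγL
    have hγμ0 : 0 < (12 / 5 / L) * μ := by positivity
    refine ⟨12 / 5 / L, 1 / 5, hγ, by norm_num, by norm_num, ?_, ?_⟩
    · exact mem_Omega hμ hγ (by norm_num; linarith) (by rw [hγL]; norm_num)
    · exact noSigmaCycle hμ hμL hγ (by norm_num) (by norm_num) (by norm_num)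
        (by rw [hγL]; nlinarith)
  · intro μ L γ β hμ hμL hγ hβ0 hβ1 hβ2 h1 h2 hpq
    refine ⟨⟨mem_Omega hμ hγ h1 h2, noSigmaCycle hμ hμL hγ hβ0 hβ1 hβ2 hpq⟩, ?_⟩
    intro h3 h4 h5
    exact exists_primitive hμ hμL hγ h3 hβ1 h4 h5
  · exact exists_primitive (by norm_num) (by norm_num) (by norm_num) (by norm_num)
      (by norm_num) (by norm_num) (by norm_num)
  · exact noSigmaCycle (by norm_num) (by norm_num) (by norm_num) (by norm_num) (by norm_num)
      (by norm_num) (by norm_num)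

end Pool.Agent.Results.MP_28939e_an.NoSigmaOrderedCycle
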